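import Mathlib

/-! Combinatorics: spreading permutations of `ℕ` and the schedule. -/

namespace Pool.Agent.X114.HC

open Finset

/-- A permutation of `ℕ` of finite support that throws `[0,a)` onto far apart positions and is
`2`-Lipschitz on the rest. -/
theorem exists_spread (a R : ℕ) (hR : 0 < R) : ∃ lam : Equiv.Perm ℕ, ∃ B : ℕ,
    (∀ y, B ≤ y → lam y = y) ∧
    (∀ w, w < a → R ≤ lam w) ∧
    (∀ w w', w < a → w' < a → w ≠ w' → (R : ℤ) ≤ |(lam w : ℤ) - lam w'|) ∧
    lam a = 0 ∧
    (∀ y, a ≤ y → |(lam (y + 1) : ℤ) - lam y| ≤ 2) := by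
  classical
  set s : ℕ → ℕ := fun w => (w + 1) * (R + 1) with hs
  have hsinj : Function.Injective s := by
    intro w w' h
    simp only [hs] at h
    have := Nat.eq_of_mul_eq_mul_right (by omega : 0 < R + 1) h
    omega
  set S : Finset ℕ := (range a).image s with hS
  set p : ℕ → Prop := fun n => n ∉ S with hp
  have hmemS : ∀ n, n ∈ S ↔ ∃ w, w < a ∧ s w = n := by
    intro n; simp [hS]
  have hcardS : S.card = a := by
    rw [hS, card_image_of_injective _ hsinj, card_range]
  have hSlt : ∀ n ∈ S, n < a * (R + 1) + 1 := by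
    intro n hn
    obtain ⟨w, hw, rfl⟩ := (hmemS n).1 hn
    have : (w + 1) * (R + 1) ≤ a * (R + 1) := Nat.mul_le_mul_right _ (by omega)
    simp only [hs]; omega
  have hinf : (Set.ofPred p).Infinite := by
    have : (Set.ofPred p) = (S : Set ℕ)ᶜ := by
      ext n; simp [hp, Set.mem_ofPred_eq]
    rw [this]
    exact S.finite_toSet.infinite_compl
  have hp0 : p 0 := by
    intro h
    obtain ⟨w, hw, h⟩ := (hmemS 0).1 h
    simp [hs] at h
  have hiso : ∀ n, n ∈ S → n + 1 ∉ S := by
    intro n hn hn'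
    obtain ⟨w, hw, h⟩ := (hmemS _).1 hn
    obtain ⟨w', hw', h'⟩ := (hmemS _).1 hn'
    simp only [hs] at h h'
    have hlt : w < w' := by
      by_contra hc
      have : (w' + 1) * (R + 1) ≤ (w + 1) * (R + 1) := Nat.mul_le_mul_right _ (by omega)
      omega
    have : (w + 1 + 1) * (R + 1) ≤ (w' + 1) * (R + 1) := Nat.mul_le_mul_right _ (by omega)
    have e : (w + 1 + 1) * (R + 1) = (w + 1) * (R + 1) + (R + 1) := by ring
    omega
  set q : ℕ → ℕ := Nat.nth p with hq
  have hqm : StrictMono q := Nat.nth_strictMono hinf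
  have hqp : ∀ t, q t ∉ S := fun t => Nat.nth_mem_of_infinite hinf t
  have hq0 : q 0 = 0 := Nat.nth_zero_of_zero hp0
  have hqsurj : ∀ n, n ∉ S → ∃ t, q t = n := fun n hn => ⟨Nat.count p n, Nat.nth_count hn⟩
  have hgap : ∀ t, q (t + 1) ≤ q t + 2 := by
    intro t
    have : ∃ n, q t < n ∧ n ≤ q t + 2 ∧ n ∉ S := by
      by_cases h1 : q t + 1 ∈ S
      · exact ⟨q t + 1 + 1, by omega, by omega, hiso _ h1⟩
      · exact ⟨q t + 1, by omega, by omega, h1⟩
    obtain ⟨n, h1, h2, h3⟩ := this
    obtain ⟨u, rfl⟩ := hqsurj n h3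
    have : t < u := hqm.lt_iff_lt.1 h1
    exact (hqm.monotone (by omega : t + 1 ≤ u)).trans h2
  have hev : ∀ n, a * (R + 1) + 1 ≤ n → q (n - a) = n := by
    intro n hn
    have hnS : n ∉ S := fun h => by have := hSlt n h; omega
    have hc : Nat.count p n = n - a := by
      rw [Nat.count_eq_card_filter_range]
      have : (range n).filter p = range n \ S := by
        ext x; simp [hp]
      rw [this, card_sdiff_of_subset, card_range, hcardS]
      intro x hx
      have := hSlt x hx
      exact mem_range.2 (by omega)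
    rw [← hc]
    exact Nat.nth_count hnS
  set F : ℕ → ℕ := fun y => if y < a then s y else q (y - a) with hF
  have hFinj : Function.Injective F := by
    intro x y h
    simp only [hF] at h
    by_cases hx : x < a <;> by_cases hy : y < a <;> simp only [hx, hy, if_true, if_false] at h
    · exact hsinj h
    · exact absurd ((hmemS _).2 ⟨x, hx, h⟩) (hqp _)
    · exact absurd ((hmemS _).2 ⟨y, hy, h.symm⟩) (hqp _)
    · have := hqm.injective h; omega
  have hFsurj : Function.Surjective F := by
    intro n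
    by_cases hn : n ∈ S
    · obtain ⟨w, hw, h⟩ := (hmemS n).1 hn
      exact ⟨w, by simp [hF, hw, h]⟩
    · obtain ⟨t, ht⟩ := hqsurj n hn
      exact ⟨t + a, by simp [hF, ht]⟩
  refine ⟨Equiv.ofBijective F ⟨hFinj, hFsurj⟩, a * (R + 1) + 1, ?_, ?_, ?_, ?_, ?_⟩
  · intro y hy
    have : ¬ y < a := by nlinarith
    simp only [Equiv.ofBijective_apply, hF, this, if_false]
    exact hev y hy
  · intro w hw
    simp only [Equiv.ofBijective_apply, hF, hw, if_true, hs]
    nlinarith
  · intro w w' hw hw' hne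
    simp only [Equiv.ofBijective_apply, hF, hw, hw', if_true, hs]
    push_cast
    have e : ((w : ℤ) + 1) * (R + 1) - (w' + 1) * (R + 1) = (w - w') * (R + 1) := by ring
    rw [e, abs_mul]
    have h1 : (1 : ℤ) ≤ |(w : ℤ) - w'| := Int.one_le_abs (by omega)
    have h2 : |((R : ℤ) + 1)| = R + 1 := abs_of_nonneg (by positivity)
    rw [h2]
    nlinarith
  · simp only [Equiv.ofBijective_apply, hF]
    simp [hq0]
  · intro y hy
    have h1 : ¬ y < a := by omega
    have h2 : ¬ y + 1 < a := by omega
    simp only [Equiv.ofBijective_apply, hF, h1, h2, if_false]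
    have e : y + 1 - a = (y - a) + 1 := by omega
    rw [e]
    have := hgap (y - a)
    have := hqm (by omega : y - a < y - a + 1)
    rw [abs_le]; constructor <;> omega

/-- Consecutive permutations of a slow path move every point by at most `1`. -/
def Close (al be : Equiv.Perm ℕ) : Prop := ∀ y, |(be y : ℤ) - al y| ≤ 1

/-- One step: multiply by an adjacent transposition below `B`. -/
def Step (B : ℕ) (al be : Equiv.Perm ℕ) : Prop :=
  ∃ x, x + 1 < B ∧ be = Equiv.swap x (x + 1) * al

theorem Step.close {B : ℕ} {al be : Equiv.Perm ℕ} (h : Step B al be) : Close al be := by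
  obtain ⟨x, hx, rfl⟩ := h
  intro y
  simp only [Equiv.Perm.mul_apply, Equiv.swap_apply_def]
  split_ifs with h1 h2
  · rw [h1]; simp
  · rw [h2]; simp
  · simp

theorem Step.fix {B : ℕ} {al be : Equiv.Perm ℕ} (h : Step B al be)
    (ha : ∀ y, B ≤ y → al y = y) : ∀ y, B ≤ y → be y = y := by
  obtain ⟨x, hx, rfl⟩ := h
  intro y hy
  simp only [Equiv.Perm.mul_apply, ha y hy]
  exact Equiv.swap_apply_of_ne_of_ne (by omega) (by omega)

theorem steps_swap (B : ℕ) (x d : ℕ) (al : Equiv.Perm ℕ) (h : x + d < B) :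
    Relation.ReflTransGen (Step B) al (Equiv.swap x (x + d) * al) := by
  induction d generalizing al with
  | zero =>
    have e : Equiv.swap x (x + 0) * al = al := by
      rw [Nat.add_zero, Equiv.swap_self]; rfl
    rw [e]
  | succ d ih =>
    rcases Nat.eq_zero_or_pos d with rfl | hd
    · exact Relation.ReflTransGen.single ⟨x, by omega, rfl⟩
    · have e : Equiv.swap x (x + (d + 1)) =
          Equiv.swap (x + d) (x + d + 1) * Equiv.swap x (x + d) * Equiv.swap (x + d) (x + d + 1) := by
        have := Equiv.swap_mul_swap_mul_swap (x := x + d) (y := x) (z := x + d + 1)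
          (by omega) (by omega)
        rw [← Nat.add_assoc]
        rw [Equiv.swap_comm x (x + d + 1)]
        rw [Equiv.swap_comm x (x + d)]
        ext y
        simp only [Equiv.Perm.mul_apply, Equiv.swap_apply_def]
        split_ifs <;> omega
      have h1 : Relation.ReflTransGen (Step B) al (Equiv.swap (x + d) (x + d + 1) * al) :=
        Relation.ReflTransGen.single ⟨x + d, by omega, rfl⟩
      have h2 := ih (Equiv.swap (x + d) (x + d + 1) * al) (by omega)
      have h3 : Relation.ReflTransGen (Step B)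
          (Equiv.swap x (x + d) * (Equiv.swap (x + d) (x + d + 1) * al))
          (Equiv.swap (x + d) (x + d + 1) *
            (Equiv.swap x (x + d) * (Equiv.swap (x + d) (x + d + 1) * al))) :=
        Relation.ReflTransGen.single ⟨x + d, by omega, rfl⟩
      rw [e]
      simpa only [mul_assoc] using (h1.trans h2).trans h3

theorem steps_any (C B : ℕ) (hC : C ≤ B) (ga al : Equiv.Perm ℕ)
    (h : ∀ y, C ≤ y → ga y = y) :
    Relation.ReflTransGen (Step B) al (ga * al) := by
  induction C generalizing ga with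
  | zero =>
    have : ga = 1 := by ext y; simpa using h y (Nat.zero_le _)
    rw [this, one_mul]
  | succ C ih =>
    set x := ga C with hx
    have hxC : x ≤ C := by
      by_contra hc
      have h1 : ga x = x := h x (by omega)
      have : x = C := ga.injective (by rw [h1])
      omega
    have hfix : ∀ y, C ≤ y → (Equiv.swap x C * ga) y = y := by
      intro y hy
      rcases Nat.eq_or_lt_of_le hy with rfl | hy
      · simp [Equiv.Perm.mul_apply, ← hx]
      · rw [Equiv.Perm.mul_apply, h y hy]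
        exact Equiv.swap_apply_of_ne_of_ne (by omega) (by omega)
    have h1 := ih (by omega) (Equiv.swap x C * ga) hfix
    obtain ⟨d, hd⟩ := Nat.exists_eq_add_of_le hxC
    have h2 := steps_swap B x d (Equiv.swap x C * ga * al) (by omega)
    rw [← hd] at h2
    have e : Equiv.swap x C * (Equiv.swap x C * ga * al) = ga * al := by
      rw [← mul_assoc, ← mul_assoc, Equiv.swap_mul_self, one_mul]
    rw [e] at h2
    exact h1.trans h2

theorem path_of_steps (B : ℕ) (al be : Equiv.Perm ℕ) (h : Relation.ReflTransGen (Step B) al be)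
    (ha : ∀ y, B ≤ y → al y = y) :
    ∃ (p : ℕ → Equiv.Perm ℕ) (l : ℕ), p 0 = al ∧ (∀ j, l ≤ j → p j = be) ∧
      (∀ j, Close (p j) (p (j + 1))) ∧ (∀ j y, B ≤ y → p j y = y) := by
  induction h using Relation.ReflTransGen.head_induction_on with
  | refl => exact ⟨fun _ => be, 0, rfl, fun _ _ => rfl, fun j y => by simp, fun j => ha⟩
  | head h1 h2 ih =>
    rename_i a c
    obtain ⟨p, l, hp0, hpl, hpc, hpB⟩ := ih (h1.fix ha)
    refine ⟨fun j => Nat.casesOn j a p, l + 1, rfl, ?_, ?_, ?_⟩
    · intro j hj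
      cases j with
      | zero => omega
      | succ j => exact hpl j (by omega)
    · intro j
      cases j with
      | zero => simpa [hp0] using h1.close
      | succ j => exact hpc j
    · intro j
      cases j with
      | zero => exact ha
      | succ j => exact hpB j

theorem exists_path (B : ℕ) (al be : Equiv.Perm ℕ) (ha : ∀ y, B ≤ y → al y = y)
    (hb : ∀ y, B ≤ y → be y = y) :
    ∃ (p : ℕ → Equiv.Perm ℕ) (l : ℕ), p 0 = al ∧ (∀ j, l ≤ j → p j = be) ∧
      (∀ j, Close (p j) (p (j + 1))) ∧ (∀ j y, B ≤ y → p j y = y) := by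
  have h := steps_any B B le_rfl (be * al⁻¹) al (by
    intro y hy
    rw [Equiv.Perm.mul_apply]
    have : al⁻¹ y = y := by rw [Equiv.Perm.inv_eq_iff_eq, ha y hy]
    rw [this, hb y hy])
  rw [inv_mul_cancel_right] at h
  exact path_of_steps B al be h ha

/-- States of the construction: a path, a time after which it is constant, and a bound for all
supports. -/
structure St where
  p : ℕ → Equiv.Perm ℕ
  L : ℕ
  A : ℕ
  p0 : p 0 = 1
  const : ∀ j, L ≤ j → p j = p L
  close : ∀ j, Close (p j) (p (j + 1))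
  fix : ∀ j y, A ≤ y → p j y = y

/-- The requirement of stage `k`. -/
def Req (k : ℕ) (p : ℕ → Equiv.Perm ℕ) (n a R : ℕ) (lam : Equiv.Perm ℕ) : Prop :=
  k ≤ a ∧ 0 < a ∧ 2 * k < n ∧ 0 < R ∧ k * a ≤ R ∧
    (∀ j, j ≤ k → ∀ y, a ≤ y → p j y = y) ∧
    (∀ j, n ≤ j + k → j ≤ n + k → p j = lam) ∧
    (∀ w, w < a → R ≤ lam w) ∧
    (∀ w w', w < a → w' < a → w ≠ w' → (R : ℤ) ≤ |(lam w : ℤ) - lam w'|) ∧
    lam a = 0 ∧
    (∀ y, a ≤ y → |(lam (y + 1) : ℤ) - lam y| ≤ 2)

theorem St.extend (k : ℕ) (s : St) (hk : k ≤ s.L) : ∃ s' : St, s.L < s'.L ∧ (∀ j, j ≤ s.L → s'.p j = s.p j) ∧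
    ∃ n a R lam, n + k ≤ s'.L ∧ Req k s'.p n a R lam := by
  obtain ⟨lam, B, h1, h2, h3, h4, h5⟩ := exists_spread (s.A + k + 1) (k * (s.A + k + 1) + 1)
    (by omega)
  obtain ⟨p, l, hp0, hpl, hpc, hpB⟩ := exists_path (max s.A B) (s.p s.L) lam
    (fun y hy => s.fix _ y ((le_max_left _ _).trans hy))
    (fun y hy => h1 y ((le_max_right _ _).trans hy))
  set P : ℕ → Equiv.Perm ℕ := fun j => if j ≤ s.L then s.p j else p (j - s.L) with hP
  have hPle : ∀ j, j ≤ s.L → P j = s.p j := fun j hj => by simp [hP, hj]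
  have hPge : ∀ j, P (s.L + j) = p j := by
    intro j
    rcases Nat.eq_zero_or_pos j with rfl | hj
    · simp [hP, hp0]
    · have : ¬ s.L + j ≤ s.L := by omega
      simp [hP, this]
  have hPconst : ∀ j, s.L + l ≤ j → P j = lam := by
    intro j hj
    obtain ⟨d, rfl⟩ := Nat.exists_eq_add_of_le (show s.L ≤ j by omega)
    rw [hPge]
    exact hpl d (by omega)
  have hPfix : ∀ j y, max s.A B ≤ y → P j y = y := by
    intro j y hy
    rcases le_total j s.L with hj | hj
    · rw [hPle j hj]; exact s.fix j y ((le_max_left _ _).trans hy)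
    · obtain ⟨d, rfl⟩ := Nat.exists_eq_add_of_le hj
      rw [hPge]; exact hpB d y hy
  have hPclose : ∀ j, Close (P j) (P (j + 1)) := by
    intro j
    rcases lt_or_ge j s.L with hj | hj
    · rw [hPle j hj.le, hPle (j + 1) hj]; exact s.close j
    · obtain ⟨d, rfl⟩ := Nat.exists_eq_add_of_le hj
      rw [add_assoc, hPge, hPge]; exact hpc d
  refine ⟨⟨P, s.L + l + 4 * k + 2, max s.A B, ?_, ?_, hPclose, hPfix⟩, ?_, hPle,
    s.L + l + 3 * k + 1, s.A + k + 1, k * (s.A + k + 1) + 1, lam, ?_, ?_⟩
  · rw [hPle 0 (Nat.zero_le _), s.p0]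
  · intro j hj
    rw [hPconst j (by omega), hPconst _ (by omega)]
  · show s.L < s.L + l + 4 * k + 2
    omega
  · show s.L + l + 3 * k + 1 + k ≤ s.L + l + 4 * k + 2
    omega
  · refine ⟨by omega, by omega, by omega, by omega, by omega, ?_, ?_, h2, h3, h4, h5⟩
    · intro j hj y hy
      show P j y = y
      rw [hPle j (by omega)]
      exact s.fix j y (by omega)
    · intro j hj1 hj2
      exact hPconst j (by omega)

/-- The total extension step. -/
noncomputable def St.next (k : ℕ) (s : St) : St :=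
  if hk : k ≤ s.L then (s.extend k hk).choose else s

theorem St.next_spec (k : ℕ) (s : St) (hk : k ≤ s.L) : s.L < (s.next k).L ∧
    (∀ j, j ≤ s.L → (s.next k).p j = s.p j) ∧
    ∃ n a R lam, n + k ≤ (s.next k).L ∧ Req k (s.next k).p n a R lam := by
  have : s.next k = (s.extend k hk).choose := by simp [St.next, hk]
  rw [this]
  exact (s.extend k hk).choose_spec

/-- The sequence of states. -/
noncomputable def seq : ℕ → St
  | 0 => ⟨fun _ => 1, 0, 0, rfl, fun _ _ => rfl, fun _ y => by simp, fun _ _ _ => rfl⟩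
  | k + 1 => (seq k).next k

theorem le_seq_L (k : ℕ) : k ≤ (seq k).L := by
  induction k with
  | zero => exact Nat.zero_le _
  | succ k ih =>
    have := ((seq k).next_spec k ih).1
    show k + 1 ≤ ((seq k).next k).L
    omega

theorem seq_agree (k d j : ℕ) (hj : j ≤ (seq k).L) : (seq (k + d)).p j = (seq k).p j ∧
    (seq k).L ≤ (seq (k + d)).L := by
  induction d with
  | zero => exact ⟨rfl, le_rfl⟩
  | succ d ih =>
    obtain ⟨h1, h2, _⟩ := (seq (k + d)).next_spec (k + d) (le_seq_L _)
    refine ⟨?_, ?_⟩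
    · rw [← ih.1]
      exact h2 j (hj.trans ih.2)
    · exact ih.2.trans h1.le

/-- The schedule. -/
theorem exists_schedule : ∃ sig : ℕ → Equiv.Perm ℕ, sig 0 = 1 ∧
    (∀ j, Close (sig j) (sig (j + 1))) ∧
    ∀ k, ∃ n a R lam, Req k sig n a R lam := by
  have key : ∀ k j, j ≤ (seq k).L → (seq j).p j = (seq k).p j := by
    intro k j hj
    rcases le_total k j with h | h
    · obtain ⟨d, rfl⟩ := Nat.exists_eq_add_of_le h
      exact (seq_agree k d _ hj).1
    · obtain ⟨d, hd⟩ := Nat.exists_eq_add_of_le h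
      rw [hd]
      exact ((seq_agree j d j (le_seq_L j)).1).symm
  refine ⟨fun j => (seq j).p j, (seq 0).p0, ?_, ?_⟩
  · intro j
    show Close ((seq j).p j) ((seq (j + 1)).p (j + 1))
    rw [key (j + 1) j (by have := le_seq_L (j + 1); omega)]
    exact (seq (j + 1)).close j
  · intro k
    obtain ⟨_, _, n, a, R, lam, hn, hR⟩ := (seq k).next_spec k (le_seq_L k)
    refine ⟨n, a, R, lam, ?_⟩
    obtain ⟨r1, r2, r3, r4, r5, r6, r7, r8⟩ := hR
    refine ⟨r1, r2, r3, r4, r5, ?_, ?_, r8⟩
    · intro j hj y hy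
      show (seq j).p j y = y
      rw [key (k + 1) j (by have := le_seq_L (k + 1); omega)]
      exact r6 j hj y hy
    · intro j hj1 hj2
      show (seq j).p j = lam
      rw [key (k + 1) j (by show j ≤ ((seq k).next k).L; omega)]
      exact r7 j hj1 hj2

end Pool.Agent.X114.HC
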