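import Pool.Agent.X114.HC.HC1

/-! The norm inequalities and the transitivity step. -/

namespace Pool.Agent.X114.HC

open Finset

/-- The label at position `x` on the `i`-th tooth. -/
def lab (sig : ℕ → Equiv.Perm ℕ) (i : ℤ) (x : ℕ) : ℕ := (sig i.natAbs).symm x

/-- `‖f‖ ≤ c` in the little Lipschitz norm of the twisted comb. -/
structure NL (sig : ℕ → Equiv.Perm ℕ) (f : ℤ × ℕ → ℂ) (c : ℝ) : Prop where
  root : ‖f (0, 0)‖ ≤ c
  tooth : ∀ i x, ‖f (i, lab sig i x) - f (i, lab sig i (x + 1))‖ ≤ c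
  spine : ∀ i, ‖f (i, lab sig i 0) - f (i + 1, lab sig (i + 1) 0)‖ ≤ c

theorem NL.mono {sig : ℕ → Equiv.Perm ℕ} {f : ℤ × ℕ → ℂ} {c d : ℝ} (h : NL sig f c)
    (hcd : c ≤ d) : NL sig f d :=
  ⟨h.root.trans hcd, fun i x => (h.tooth i x).trans hcd, fun i => (h.spine i).trans hcd⟩

theorem NL.add {sig : ℕ → Equiv.Perm ℕ} {f g : ℤ × ℕ → ℂ} {c d : ℝ} (hf : NL sig f c)
    (hg : NL sig g d) : NL sig (fun v => f v + g v) (c + d) := by
  refine ⟨(norm_add_le _ _).trans (add_le_add hf.root hg.root), fun i x => ?_, fun i => ?_⟩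
  · rw [add_sub_add_comm]
    exact (norm_add_le _ _).trans (add_le_add (hf.tooth i x) (hg.tooth i x))
  · rw [add_sub_add_comm]
    exact (norm_add_le _ _).trans (add_le_add (hf.spine i) (hg.spine i))

theorem NL.neg {sig : ℕ → Equiv.Perm ℕ} {f : ℤ × ℕ → ℂ} {c : ℝ} (hf : NL sig f c) :
    NL sig (fun v => - f v) c := by
  refine ⟨by rw [norm_neg]; exact hf.root, fun i x => ?_, fun i => ?_⟩
  · rw [neg_sub_neg, norm_sub_rev]; exact hf.tooth i x
  · rw [neg_sub_neg, norm_sub_rev]; exact hf.spine i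

/-- The tent of width `R`. -/
noncomputable def tent (R : ℕ) (z : ℤ) : ℝ := max 0 (1 - |(z : ℝ)| / R)

theorem tent_zero (R : ℕ) : tent R 0 = 1 := by simp [tent]

theorem tent_far (R : ℕ) (hR : 0 < R) (z : ℤ) (hz : (R : ℤ) ≤ |z|) : tent R z = 0 := by
  unfold tent
  apply max_eq_left
  have hR' : (0 : ℝ) < R := by exact_mod_cast hR
  have : (1 : ℝ) ≤ |(z : ℝ)| / R := by
    rw [le_div_iff₀ hR', one_mul]
    exact_mod_cast hz
  linarith

theorem tent_lip (R : ℕ) (hR : 0 < R) (z z' : ℤ) :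
    |tent R z - tent R z'| ≤ |((z - z' : ℤ) : ℝ)| / R := by
  unfold tent
  have hR' : (0 : ℝ) < R := by exact_mod_cast hR
  refine (abs_max_sub_max_le_max _ _ _ _).trans ?_
  rw [sub_self, abs_zero]
  apply max_le (by positivity)
  have e : 1 - |(z : ℝ)| / R - (1 - |(z' : ℝ)| / R) = (|(z' : ℝ)| - |(z : ℝ)|) / R := by ring
  rw [e, abs_div, abs_of_pos hR']
  apply div_le_div_of_nonneg_right _ hR'.le
  push_cast
  rw [abs_sub_comm (z : ℝ)]
  exact abs_abs_sub_abs_le_abs_sub _ _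

/-- The extension of `h` from the labels below `a`. -/
noncomputable def ext (a R : ℕ) (lam : Equiv.Perm ℕ) (h : ℤ × ℕ → ℂ) : ℤ × ℕ → ℂ := fun v =>
  ∑ w ∈ range a, h (v.1, w) * ((tent R ((lam v.2 : ℤ) - lam w) : ℝ) : ℂ)

theorem ext_eq {a R : ℕ} (hR : 0 < R) {lam : Equiv.Perm ℕ}
    (hsep : ∀ w w', w < a → w' < a → w ≠ w' → (R : ℤ) ≤ |(lam w : ℤ) - lam w'|)
    (h : ℤ × ℕ → ℂ) (i : ℤ) (y : ℕ) (hy : y < a) : ext a R lam h (i, y) = h (i, y) := by
  unfold ext
  rw [Finset.sum_eq_single y]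
  · simp [tent_zero]
  · intro w hw hne
    rw [tent_far R hR _ (hsep y w hy (mem_range.1 hw) (Ne.symm hne))]
    simp
  · intro hy'
    exact absurd (mem_range.2 hy) hy'

theorem ext_a {a R : ℕ} (hR : 0 < R) {lam : Equiv.Perm ℕ}
    (hfar : ∀ w, w < a → R ≤ lam w) (h0 : lam a = 0)
    (h : ℤ × ℕ → ℂ) (i : ℤ) : ext a R lam h (i, a) = 0 := by
  unfold ext
  apply Finset.sum_eq_zero
  intro w hw
  have := hfar w (mem_range.1 hw)
  rw [tent_far R hR _ (by
    simp only [h0]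
    rw [Nat.cast_zero, zero_sub, abs_neg, Nat.abs_cast]
    exact_mod_cast this)]
  simp

theorem ext_zero {a R : ℕ} {lam : Equiv.Perm ℕ} (h : ℤ × ℕ → ℂ) (i : ℤ) (y : ℕ)
    (hi : ∀ w, h (i, w) = 0) : ext a R lam h (i, y) = 0 := by
  unfold ext
  apply Finset.sum_eq_zero
  intro w _
  simp [hi]

theorem ext_lip {a R : ℕ} (hR : 0 < R) {lam : Equiv.Perm ℕ} (h : ℤ × ℕ → ℂ) (K : ℝ)
    (hK : ∀ v, ‖h v‖ ≤ K) (i : ℤ) (y y' : ℕ) (D : ℤ) (hD : |(lam y : ℤ) - lam y'| ≤ D) :
    ‖ext a R lam h (i, y) - ext a R lam h (i, y')‖ ≤ a * K * D / R := by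
  unfold ext
  have hR' : (0 : ℝ) < R := by exact_mod_cast hR
  have hK0 : 0 ≤ K := (norm_nonneg _).trans (hK (0, 0))
  rw [← Finset.sum_sub_distrib]
  have : ∀ w ∈ range a, ‖h (i, w) * ((tent R ((lam y : ℤ) - lam w) : ℝ) : ℂ) -
      h (i, w) * ((tent R ((lam y' : ℤ) - lam w) : ℝ) : ℂ)‖ ≤ K * (D / R) := by
    intro w _
    rw [← mul_sub, norm_mul]
    apply mul_le_mul (hK _) _ (norm_nonneg _) hK0
    rw [← Complex.ofReal_sub, Complex.norm_real, Real.norm_eq_abs]
    refine (tent_lip R hR _ _).trans ?_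
    apply div_le_div_of_nonneg_right _ hR'.le
    have e : ((lam y : ℤ) - lam w - ((lam y' : ℤ) - lam w)) = (lam y : ℤ) - lam y' := by ring
    rw [e]
    exact_mod_cast hD
  refine (norm_sum_le_of_le _ this).trans (le_of_eq ?_)
  rw [Finset.sum_const, card_range, nsmul_eq_mul]
  ring

/-- Finite support. -/
def FS (f : ℤ × ℕ → ℂ) : Prop := ∃ r : ℕ, ∀ i y, f (i, y) ≠ 0 → i.natAbs ≤ r ∧ y < r

theorem FS.add {f g : ℤ × ℕ → ℂ} (hf : FS f) (hg : FS g) : FS (fun v => f v + g v) := by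
  obtain ⟨r, hr⟩ := hf
  obtain ⟨s, hs⟩ := hg
  refine ⟨r + s, fun i y h => ?_⟩
  by_cases h1 : f (i, y) = 0
  · have h2 : g (i, y) ≠ 0 := by
      intro h2; apply h; simp [h1, h2]
    have := hs i y h2
    omega
  · have := hr i y h1
    omega

theorem FS.shift {f : ℤ × ℕ → ℂ} (hf : FS f) (s : ℤ) : FS (fun v => f (v.1 + s, v.2)) := by
  obtain ⟨r, hr⟩ := hf
  refine ⟨r + s.natAbs, fun i y h => ?_⟩
  have := hr _ _ h
  omega

theorem FS.ext {a R : ℕ} (hR : 0 < R) {lam : Equiv.Perm ℕ} {h : ℤ × ℕ → ℂ} (hh : FS h) :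
    FS (ext a R lam h) := by
  obtain ⟨r, hr⟩ := hh
  set Bd := ∑ w ∈ range a, (lam w + R) with hBd
  set Y := ∑ z ∈ range Bd, (lam.symm z + 1) with hY
  refine ⟨r + Y, fun i y hne => ?_⟩
  have : ∃ w ∈ range a, h (i, w) * ((tent R ((lam y : ℤ) - lam w) : ℝ) : ℂ) ≠ 0 := by
    by_contra hc
    push Not at hc
    exact hne (Finset.sum_eq_zero hc)
  obtain ⟨w, hw, hne'⟩ := this
  have h1 : h (i, w) ≠ 0 := fun h0 => hne' (by simp [h0])
  have h2 : tent R ((lam y : ℤ) - lam w) ≠ 0 := fun h0 => hne' (by simp [h0])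
  have h3 : ¬ (R : ℤ) ≤ |(lam y : ℤ) - lam w| := fun hc => h2 (tent_far R hR _ hc)
  have h4 : lam y < lam w + R := by
    push Not at h3
    have := (abs_lt.1 h3).2
    omega
  have h5 : lam w + R ≤ Bd := Finset.single_le_sum (f := fun w => lam w + R)
    (fun _ _ => Nat.zero_le _) hw
  have h6 : lam.symm (lam y) + 1 ≤ Y := Finset.single_le_sum (f := fun z => lam.symm z + 1)
    (fun _ _ => Nat.zero_le _) (mem_range.2 (by omega : lam y < Bd))
  rw [Equiv.symm_apply_apply] at h6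
  have := hr i w h1
  omega

theorem FS.bdd {h : ℤ × ℕ → ℂ} (hh : FS h) : ∃ K : ℝ, ∀ v, ‖h v‖ ≤ K := by
  obtain ⟨r, hr⟩ := hh
  refine ⟨∑ v ∈ (Finset.Icc (-(r : ℤ)) r) ×ˢ (range r), ‖h v‖, fun v => ?_⟩
  by_cases hv : h v = 0
  · rw [hv, norm_zero]
    exact Finset.sum_nonneg fun _ _ => norm_nonneg _
  · have := hr v.1 v.2 hv
    exact Finset.single_le_sum (f := fun v => ‖h v‖) (fun _ _ => norm_nonneg _)
      (mem_product.2 ⟨mem_Icc.2 (by omega), mem_range.2 this.2⟩)

section step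

variable {sig : ℕ → Equiv.Perm ℕ} {k n a R : ℕ} {lam : Equiv.Perm ℕ}

theorem near (H : Req k sig n a R lam) {h : ℤ × ℕ → ℂ}
    (hh : ∀ i y, h (i, y) ≠ 0 → i.natAbs ≤ k ∧ y < k) {K : ℝ} (hK : ∀ v, ‖h v‖ ≤ K) :
    NL sig (fun v => ext a R lam h v - h v) (a * K * 2 / R) := by
  obtain ⟨r1, r2, r3, r4, r5, r6, r7, r8, r9, r10, r11⟩ := H
  have hR' : (0 : ℝ) < R := by exact_mod_cast r4
  have hK0 : 0 ≤ K := (norm_nonneg _).trans (hK (0, 0))
  have hpos : (0 : ℝ) ≤ a * K * 2 / R := by positivity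
  -- the difference vanishes at labels below `a` and at `a`
  have hz : ∀ i y, y ≤ a → ext a R lam h (i, y) - h (i, y) = 0 := by
    intro i y hy
    rcases Nat.lt_or_eq_of_le hy with hy | rfl
    · rw [ext_eq r4 r9 h i y hy, sub_self]
    · rw [ext_a r4 r8 r10 h i]
      have : h (i, y) = 0 := by
        by_contra hc
        have := hh i y hc
        omega
      rw [this, sub_self]
  have hfar : ∀ (i : ℤ) y, k < i.natAbs → ext a R lam h (i, y) - h (i, y) = 0 := by
    intro i y hi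
    have : ∀ w, h (i, w) = 0 := by
      intro w
      by_contra hc
      have := hh i w hc
      omega
    rw [ext_zero h i y this, this, sub_self]
  have hlab : ∀ (i : ℤ) x, i.natAbs ≤ k → a ≤ x → lab sig i x = x := by
    intro i x hi hx
    unfold lab
    rw [Equiv.symm_apply_eq]
    exact (r6 _ hi x hx).symm
  have hlab' : ∀ (i : ℤ) x, i.natAbs ≤ k → x < a → lab sig i x < a := by
    intro i x hi hx
    by_contra hc
    push Not at hc
    have h1 := r6 _ hi _ hc
    unfold lab at h1 hc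
    rw [Equiv.apply_symm_apply] at h1
    omega
  refine ⟨?_, fun i x => ?_, fun i => ?_⟩
  · rw [hz 0 0 (by omega), norm_zero]; exact hpos
  · rcases lt_or_ge k i.natAbs with hi | hi
    · rw [hfar i _ hi, hfar i _ hi, sub_self, norm_zero]; exact hpos
    · rcases lt_or_ge x a with hx | hx
      · have h1 := hlab' i x hi hx
        rw [hz i _ h1.le]
        have h2 : lab sig i (x + 1) ≤ a := by
          rcases Nat.lt_or_eq_of_le (show x + 1 ≤ a by omega) with h | h
          · exact (hlab' i _ hi h).le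
          · rw [hlab i _ hi h.ge]; omega
        rw [hz i _ h2, sub_self, norm_zero]; exact hpos
      · rw [hlab i x hi hx, hlab i (x + 1) hi (by omega)]
        have h1 : h (i, x) = 0 := by
          by_contra hc
          have := hh i x hc
          omega
        have h2 : h (i, x + 1) = 0 := by
          by_contra hc
          have := hh i (x + 1) hc
          omega
        rw [h1, h2, sub_zero, sub_zero]
        have := ext_lip r4 (lam := lam) (a := a) h K hK i x (x + 1) 2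
          (by rw [abs_sub_comm]; exact r11 x hx)
        exact_mod_cast this
  · have key : ∀ i : ℤ, ext a R lam h (i, lab sig i 0) - h (i, lab sig i 0) = 0 := by
      intro i
      rcases lt_or_ge k i.natAbs with hi | hi
      · exact hfar i _ hi
      · exact hz i _ (hlab' i 0 hi r2).le
    rw [key i, key (i + 1), sub_self, norm_zero]; exact hpos

theorem far (H : Req k sig n a R lam) {h : ℤ × ℕ → ℂ}
    (hh : ∀ i y, h (i, y) ≠ 0 → i.natAbs ≤ k ∧ y < k) {K : ℝ} (hK : ∀ v, ‖h v‖ ≤ K)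
    (s : ℤ) (hs : s.natAbs = n) :
    NL sig (fun v => ext a R lam h (v.1 + s, v.2)) (a * K * 2 / R) := by
  obtain ⟨r1, r2, r3, r4, r5, r6, r7, r8, r9, r10, r11⟩ := H
  have hR' : (0 : ℝ) < R := by exact_mod_cast r4
  have hK0 : 0 ≤ K := (norm_nonneg _).trans (hK (0, 0))
  have hpos : (0 : ℝ) ≤ a * K * 2 / R := by positivity
  have hfar : ∀ (i : ℤ) y, k < i.natAbs → ext a R lam h (i, y) = 0 := by
    intro i y hi
    apply ext_zero
    intro w
    by_contra hc
    have := hh i w hc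
    omega
  have hsig : ∀ i : ℤ, (i + s).natAbs ≤ k → sig i.natAbs = lam := by
    intro i hi
    apply r7 <;> omega
  have h0 : ∀ i : ℤ, ext a R lam h (i + s, lab sig i 0) = 0 := by
    intro i
    rcases lt_or_ge k (i + s).natAbs with hi | hi
    · exact hfar _ _ hi
    · have : lab sig i 0 = a := by
        unfold lab
        rw [hsig i hi, Equiv.symm_apply_eq, r10]
      rw [this]
      exact ext_a r4 r8 r10 h _
  refine ⟨?_, fun i x => ?_, fun i => ?_⟩
  · show ‖ext a R lam h (0 + s, 0)‖ ≤ _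
    rw [hfar _ _ (by omega), norm_zero]; exact hpos
  · show ‖ext a R lam h (i + s, lab sig i x) - ext a R lam h (i + s, lab sig i (x + 1))‖ ≤ _
    rcases lt_or_ge k (i + s).natAbs with hi | hi
    · rw [hfar _ _ hi, hfar _ _ hi, sub_self, norm_zero]; exact hpos
    · unfold lab
      rw [hsig i hi]
      have := ext_lip r4 (lam := lam) (a := a) h K hK (i + s) (lam.symm x) (lam.symm (x + 1)) 2
        (by rw [Equiv.apply_symm_apply, Equiv.apply_symm_apply]; push_cast
            rw [abs_le]; constructor <;> omega)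
      exact_mod_cast this
  · show ‖ext a R lam h (i + s, lab sig i 0) - ext a R lam h (i + 1 + s, lab sig (i + 1) 0)‖ ≤ _
    rw [h0 i, h0 (i + 1), sub_self, norm_zero]; exact hpos

end step

/-- The transitivity step. -/
theorem step {sig : ℕ → Equiv.Perm ℕ} (hsig : ∀ k, ∃ n a R lam, Req k sig n a R lam)
    {h g : ℤ × ℕ → ℂ} (hh : FS h) (hg : FS g) {ε : ℝ} (hε : 0 < ε) :
    ∃ (n : ℕ) (f : ℤ × ℕ → ℂ), FS f ∧ NL sig (fun v => f v - h v) ε ∧
      NL sig (fun v => f (v.1 + n, v.2) - g v) ε := by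
  obtain ⟨K1, hK1⟩ := hh.bdd
  obtain ⟨K2, hK2⟩ := hg.bdd
  have hh' := hh
  have hg' := hg
  obtain ⟨r1, hr1⟩ := hh
  obtain ⟨r2, hr2⟩ := hg
  set K := max K1 K2 with hK
  have hK0 : 0 ≤ K := (norm_nonneg _).trans ((hK1 (0, 0)).trans (le_max_left _ _))
  obtain ⟨k0, hk0⟩ := exists_nat_ge (4 * K / ε)
  set k := max (max r1 r2) (k0 + 1) with hk
  have hk1 : r1 ≤ k := (le_max_left _ _).trans (le_max_left _ _)
  have hk2 : r2 ≤ k := (le_max_right _ _).trans (le_max_left _ _)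
  have hk3 : k0 + 1 ≤ k := le_max_right _ _
  obtain ⟨n, a, R, lam, H⟩ := hsig k
  have hkpos : (0 : ℝ) < k := by exact_mod_cast (by omega : 0 < k)
  have hbound : (a : ℝ) * K * 2 / R ≤ ε / 2 := by
    obtain ⟨_, r2, _, r4, r5, _⟩ := H
    have hR' : (0 : ℝ) < R := by exact_mod_cast r4
    have ha' : (0 : ℝ) < a := by exact_mod_cast r2
    have h5 : (k : ℝ) * a ≤ R := by exact_mod_cast r5
    have h6 : 4 * K / ε ≤ k := hk0.trans (by exact_mod_cast (by omega : k0 ≤ k))
    rw [div_le_iff₀ hε] at h6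
    rw [div_le_iff₀ hR']
    nlinarith [mul_le_mul_of_nonneg_left h6 ha'.le, mul_le_mul_of_nonneg_left h5 hε.le]
  refine ⟨n, fun v => ext a R lam h v + ext a R lam g (v.1 + (-(n : ℤ)), v.2), ?_, ?_, ?_⟩
  · have hR : 0 < R := H.2.2.2.1
    exact (FS.ext hR hh').add ((FS.ext hR hg').shift (-(n : ℤ)))
  · have h1 := near H (h := h) (fun i y hne => by have := hr1 i y hne; omega)
      (fun v => (hK1 v).trans (le_max_left K1 K2))
    have h2 := far H (h := g) (fun i y hne => by have := hr2 i y hne; omega)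
      (fun v => (hK2 v).trans (le_max_right K1 K2)) (-(n : ℤ)) (by omega)
    have h3 := (h1.mono hbound).add (h2.mono hbound)
    rw [add_halves] at h3
    convert h3 using 2
    ring
  · have h1 := near H (h := g) (fun i y hne => by have := hr2 i y hne; omega)
      (fun v => (hK2 v).trans (le_max_right K1 K2))
    have h2 := far H (h := h) (fun i y hne => by have := hr1 i y hne; omega)
      (fun v => (hK1 v).trans (le_max_left K1 K2)) (n : ℤ) (by omega)
    have h3 := (h2.mono hbound).add (h1.mono hbound)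
    rw [add_halves] at h3
    convert h3 using 2
    rename_i v
    have e : (v.1 + (n : ℤ) + -(n : ℤ), v.2) = v := by simp
    simp only [e]
    ring

end Pool.Agent.X114.HC
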