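import Pool.Agent.X114.HC.HC2

/-! The hypercyclic vector. -/

namespace Pool.Agent.X114.HC

open Finset Filter Topology

section basic

variable {sig : ℕ → Equiv.Perm ℕ}

theorem NL.tooth_dist {f : ℤ × ℕ → ℂ} {c : ℝ} (h : NL sig f c) (i : ℤ) (x d : ℕ) :
    ‖f (i, lab sig i x) - f (i, lab sig i (x + d))‖ ≤ d * c := by
  induction d with
  | zero => simp
  | succ d ih =>
    have e : f (i, lab sig i x) - f (i, lab sig i (x + (d + 1))) =
        (f (i, lab sig i x) - f (i, lab sig i (x + d))) +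
          (f (i, lab sig i (x + d)) - f (i, lab sig i (x + d + 1))) := by
      rw [← add_assoc]; ring
    rw [e]
    refine (norm_add_le _ _).trans ((add_le_add ih (h.tooth i (x + d))).trans (le_of_eq ?_))
    push_cast; ring

theorem NL.nonneg {f : ℤ × ℕ → ℂ} {c : ℝ} (h : NL sig f c) : 0 ≤ c :=
  (norm_nonneg _).trans h.root

theorem NL.tooth_dist' {f : ℤ × ℕ → ℂ} {c : ℝ} (h : NL sig f c) (i : ℤ) (x y d : ℕ)
    (hxy : |(x : ℤ) - y| ≤ d) :
    ‖f (i, lab sig i x) - f (i, lab sig i y)‖ ≤ d * c := by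
  have hc := h.nonneg
  rcases le_total x y with hle | hle
  · obtain ⟨e, rfl⟩ := Nat.exists_eq_add_of_le hle
    refine (h.tooth_dist i x e).trans (mul_le_mul_of_nonneg_right ?_ hc)
    have : e ≤ d := by
      have := (abs_le.1 hxy).1
      push_cast at this
      omega
    exact_mod_cast this
  · obtain ⟨e, rfl⟩ := Nat.exists_eq_add_of_le hle
    rw [norm_sub_rev]
    refine (h.tooth_dist i y e).trans (mul_le_mul_of_nonneg_right ?_ hc)
    have : e ≤ d := by
      have := (abs_le.1 hxy).2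
      push_cast at this
      omega
    exact_mod_cast this

theorem lab_pos (i : ℤ) (y : ℕ) : lab sig i (sig i.natAbs y) = y := by
  unfold lab; simp

theorem pos_lab (i : ℤ) (x : ℕ) : sig i.natAbs (lab sig i x) = x := by
  unfold lab; simp

/-- Consecutive teeth are glued in almost the same order. -/
theorem close_consec (hcl : ∀ j, Close (sig j) (sig (j + 1))) (i : ℤ) (y : ℕ) :
    |(sig (i + 1).natAbs y : ℤ) - sig i.natAbs y| ≤ 1 := by
  rcases le_or_gt 0 i with hi | hi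
  · have : (i + 1).natAbs = i.natAbs + 1 := by omega
    rw [this]; exact hcl _ y
  · have : i.natAbs = (i + 1).natAbs + 1 := by omega
    rw [this, abs_sub_comm]; exact hcl _ y

theorem NL.shift (h0 : sig 0 = 1) (hcl : ∀ j, Close (sig j) (sig (j + 1)))
    {f : ℤ × ℕ → ℂ} {c : ℝ} (h : NL sig f c) :
    NL sig (fun v => f (v.1 + 1, v.2)) (3 * c) := by
  have hc := h.nonneg
  have hlab0 : lab sig 0 0 = 0 := by unfold lab; rw [Int.natAbs_zero, h0]; rfl
  have hmv : ∀ (i : ℤ) (x : ℕ), ∃ p : ℕ, lab sig (i + 1) p = lab sig i x ∧ |(p : ℤ) - x| ≤ 1 := by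
    intro i x
    refine ⟨sig (i + 1).natAbs (lab sig i x), lab_pos _ _, ?_⟩
    have := close_consec hcl i (lab sig i x)
    rwa [pos_lab] at this
  refine ⟨?_, fun i x => ?_, fun i => ?_⟩
  · show ‖f (0 + 1, 0)‖ ≤ 3 * c
    obtain ⟨p, hp1, hp2⟩ := hmv 0 0
    rw [hlab0] at hp1
    have h1 := h.root
    have h2 := h.spine 0
    rw [hlab0] at h2
    have h3 := h.tooth_dist' (0 + 1) 0 p 1 (by rw [abs_sub_comm]; exact_mod_cast hp2)
    rw [hp1] at h3
    have e : f (0 + 1, 0) = f (0, 0) - (f (0, 0) - f (0 + 1, lab sig (0 + 1) 0)) -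
        (f (0 + 1, lab sig (0 + 1) 0) - f (0 + 1, 0)) := by ring
    rw [e]
    refine (norm_sub_le _ _).trans ?_
    have := norm_sub_le (f (0, 0)) (f (0, 0) - f (0 + 1, lab sig (0 + 1) 0))
    rw [Nat.cast_one, one_mul] at h3
    linarith
  · show ‖f (i + 1, lab sig i x) - f (i + 1, lab sig i (x + 1))‖ ≤ 3 * c
    obtain ⟨p, hp1, hp2⟩ := hmv i x
    obtain ⟨q, hq1, hq2⟩ := hmv i (x + 1)
    rw [← hp1, ← hq1]
    have := h.tooth_dist' (i + 1) p q 3 (by
      rw [abs_le] at *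
      push_cast at *
      constructor <;> omega)
    exact_mod_cast this
  · show ‖f (i + 1, lab sig i 0) - f (i + 1 + 1, lab sig (i + 1) 0)‖ ≤ 3 * c
    obtain ⟨p, hp1, hp2⟩ := hmv i 0
    obtain ⟨q, hq1, hq2⟩ := hmv (i + 1) 0
    rw [← hp1, ← hq1]
    have h1 := h.tooth_dist' (i + 1) p 0 1 (by exact_mod_cast hp2)
    have h2 := h.spine (i + 1)
    have h3 := h.tooth_dist' (i + 1 + 1) 0 q 1 (by rw [abs_sub_comm]; exact_mod_cast hq2)
    have e : f (i + 1, lab sig (i + 1) p) - f (i + 1 + 1, lab sig (i + 1 + 1) q) =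
        (f (i + 1, lab sig (i + 1) p) - f (i + 1, lab sig (i + 1) 0)) +
        (f (i + 1, lab sig (i + 1) 0) - f (i + 1 + 1, lab sig (i + 1 + 1) 0)) +
        (f (i + 1 + 1, lab sig (i + 1 + 1) 0) - f (i + 1 + 1, lab sig (i + 1 + 1) q)) := by ring
    rw [e]
    refine (norm_add_le _ _).trans ?_
    have := norm_add_le (f (i + 1, lab sig (i + 1) p) - f (i + 1, lab sig (i + 1) 0))
      (f (i + 1, lab sig (i + 1) 0) - f (i + 1 + 1, lab sig (i + 1 + 1) 0))
    push_cast at h1 h3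
    linarith

theorem NL.shift_iter (h0 : sig 0 = 1) (hcl : ∀ j, Close (sig j) (sig (j + 1)))
    {f : ℤ × ℕ → ℂ} {c : ℝ} (h : NL sig f c) (n : ℕ) :
    NL sig (fun v => f (v.1 + n, v.2)) (3 ^ n * c) := by
  induction n with
  | zero => simpa using h
  | succ n ih =>
    have := ih.shift h0 hcl
    have e : (3 : ℝ) ^ (n + 1) * c = 3 * (3 ^ n * c) := by ring
    rw [e]
    convert this using 3
    push_cast
    congr 1
    ring

theorem NL.spine_bound (h0 : sig 0 = 1) {f : ℤ × ℕ → ℂ} {c : ℝ} (h : NL sig f c) (m : ℕ) :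
    ‖f ((m : ℤ), lab sig m 0)‖ ≤ (1 + m) * c ∧ ‖f (-(m : ℤ), lab sig (-(m : ℤ)) 0)‖ ≤ (1 + m) * c := by
  have hlab0 : lab sig 0 0 = 0 := by unfold lab; rw [Int.natAbs_zero, h0]; rfl
  induction m with
  | zero => simpa [hlab0] using h.root
  | succ m ih =>
    constructor
    · have h1 := h.spine m
      have h2 := ih.1
      have e : f (((m + 1 : ℕ) : ℤ), lab sig ((m + 1 : ℕ) : ℤ) 0) = f ((m : ℤ), lab sig m 0) -
          (f ((m : ℤ), lab sig m 0) - f ((m : ℤ) + 1, lab sig ((m : ℤ) + 1) 0)) := by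
        push_cast; ring
      rw [e]
      refine (norm_sub_le _ _).trans ?_
      push_cast
      linarith
    · have h1 := h.spine (-((m + 1 : ℕ) : ℤ))
      have h2 := ih.2
      have e0 : -((m + 1 : ℕ) : ℤ) + 1 = -(m : ℤ) := by push_cast; ring
      rw [e0] at h1
      have e : f (-((m + 1 : ℕ) : ℤ), lab sig (-((m + 1 : ℕ) : ℤ)) 0) =
          (f (-((m + 1 : ℕ) : ℤ), lab sig (-((m + 1 : ℕ) : ℤ)) 0) -
            f (-(m : ℤ), lab sig (-(m : ℤ)) 0)) + f (-(m : ℤ), lab sig (-(m : ℤ)) 0) := by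
        ring
      rw [e]
      refine (norm_add_le _ _).trans ?_
      push_cast at *
      linarith

theorem exists_pt_bound (h0 : sig 0 = 1) (v : ℤ × ℕ) :
    ∃ C : ℝ, ∀ (f : ℤ × ℕ → ℂ) (c : ℝ), NL sig f c → ‖f v‖ ≤ C * c := by
  obtain ⟨i, y⟩ := v
  refine ⟨(1 + i.natAbs) + sig i.natAbs y, fun f c h => ?_⟩
  have h1 : ‖f (i, lab sig i 0)‖ ≤ (1 + (i.natAbs : ℝ)) * c := by
    rcases Int.natAbs_eq i with hi | hi
    · have := (h.spine_bound h0 i.natAbs).1
      rwa [← hi] at this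
    · have := (h.spine_bound h0 i.natAbs).2
      rwa [← hi] at this
  have h2 := h.tooth_dist i 0 (sig i.natAbs y)
  rw [zero_add, lab_pos] at h2
  have e : f (i, y) = f (i, lab sig i 0) - (f (i, lab sig i 0) - f (i, y)) := by ring
  rw [e]
  refine (norm_sub_le _ _).trans ?_
  linarith

theorem NL.limit {u : ℕ → ℤ × ℕ → ℂ} {w : ℤ × ℕ → ℂ} {c : ℝ}
    (hu : ∀ v, Tendsto (fun k => u k v) atTop (𝓝 (w v)))
    (h : ∀ᶠ k in atTop, NL sig (u k) c) : NL sig w c := by
  refine ⟨?_, fun i x => ?_, fun i => ?_⟩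
  · exact le_of_tendsto (hu _).norm (h.mono fun k hk => hk.root)
  · exact le_of_tendsto ((hu _).sub (hu _)).norm (h.mono fun k hk => hk.tooth i x)
  · exact le_of_tendsto ((hu _).sub (hu _)).norm (h.mono fun k hk => hk.spine i)

end basic

/-- The states of the construction of the vector. -/
def Sta : Type := {s : (ℤ × ℕ → ℂ) × ℕ × ℝ // FS s.1 ∧ 1 ≤ s.2.2}

theorem exists_seq {sig : ℕ → Equiv.Perm ℕ} (h0 : sig 0 = 1)
    (hcl : ∀ j, Close (sig j) (sig (j + 1)))
    (hsig : ∀ k, ∃ n a R lam, Req k sig n a R lam)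
    (g : ℕ → ℤ × ℕ → ℂ) (hg : ∀ j, FS (g j)) :
    ∃ (F : ℕ → ℤ × ℕ → ℂ) (N : ℕ → ℕ), (∀ j, FS (F j)) ∧
      (∀ j, NL sig (fun v => F (j + 1) v - F j v) ((1 / 2) ^ (j + 1))) ∧
      (∀ j i, i < j → NL sig (fun v => F (j + 1) (v.1 + N i, v.2) - F j (v.1 + N i, v.2))
        ((1 / 2) ^ (j + 1))) ∧
      (∀ j, NL sig (fun v => F (j + 1) (v.1 + N j, v.2) - g j v) ((1 / 2) ^ (j + 1))) := by
  have hex : ∀ (j : ℕ) (s : Sta), ∃ s' : Sta,
      NL sig (fun v => s'.1.1 v - s.1.1 v) ((1 / 2) ^ (j + 1) / s.1.2.2) ∧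
      NL sig (fun v => s'.1.1 (v.1 + s'.1.2.1, v.2) - g j v) ((1 / 2) ^ (j + 1) / s.1.2.2) ∧
      s.1.2.2 ≤ s'.1.2.2 ∧ (3 : ℝ) ^ s'.1.2.1 ≤ s'.1.2.2 := by
    intro j s
    have hs : (0 : ℝ) < s.1.2.2 := lt_of_lt_of_le one_pos s.2.2
    obtain ⟨n, f, hf, hf1, hf2⟩ := step hsig s.2.1 (hg j)
      (show (0 : ℝ) < (1 / 2) ^ (j + 1) / s.1.2.2 by positivity)
    exact ⟨⟨(f, n, max s.1.2.2 (3 ^ n)), hf, s.2.2.trans (le_max_left _ _)⟩, hf1, hf2,
      le_max_left _ _, le_max_right _ _⟩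
  choose nxt h1 h2 h3 h4 using hex
  let S : ℕ → Sta := fun j => Nat.rec
    (⟨(fun _ => 0, 0, 1), ⟨0, fun i y h => absurd rfl h⟩, le_rfl⟩ : Sta) (fun j s => nxt j s) j
  have hS : ∀ j, S (j + 1) = nxt j (S j) := fun j => rfl
  have hB : ∀ i d, (S i).1.2.2 ≤ (S (i + d)).1.2.2 := by
    intro i d
    induction d with
    | zero => exact le_rfl
    | succ d ih =>
      refine ih.trans ?_
      have := h3 (i + d) (S (i + d))
      rw [← add_assoc, hS]
      exact this
  have hle : ∀ j, (1 / 2 : ℝ) ^ (j + 1) / (S j).1.2.2 ≤ (1 / 2) ^ (j + 1) := by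
    intro j
    exact div_le_self (by positivity) (S j).2.2
  refine ⟨fun j => (S j).1.1, fun j => (S (j + 1)).1.2.1, fun j => (S j).2.1, ?_, ?_, ?_⟩
  · intro j
    exact (h1 j (S j)).mono (hle j)
  · intro j i hij
    have hpos : (0 : ℝ) < (S j).1.2.2 := lt_of_lt_of_le one_pos (S j).2.2
    have hN : (3 : ℝ) ^ (S (i + 1)).1.2.1 ≤ (S j).1.2.2 := by
      obtain ⟨d, rfl⟩ := Nat.exists_eq_add_of_le (show i + 1 ≤ j from hij)
      refine le_trans ?_ (hB (i + 1) d)
      exact h4 i (S i)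
    refine ((h1 j (S j)).shift_iter h0 hcl (S (i + 1)).1.2.1).mono ?_
    rw [mul_div_assoc', div_le_iff₀ hpos, mul_comm]
    exact mul_le_mul_of_nonneg_left hN (by positivity)
  · intro j
    exact (h2 j (S j)).mono (hle j)

/-- Little-oh functions: limits of finitely supported ones. -/
def Lit (sig : ℕ → Equiv.Perm ℕ) (f : ℤ × ℕ → ℂ) : Prop :=
  ∀ ε : ℝ, 0 < ε → ∃ F, FS F ∧ NL sig (fun v => f v - F v) ε

theorem exists_vector {sig : ℕ → Equiv.Perm ℕ} (h0 : sig 0 = 1)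
    (hcl : ∀ j, Close (sig j) (sig (j + 1)))
    (hsig : ∀ k, ∃ n a R lam, Req k sig n a R lam)
    (g : ℕ → ℤ × ℕ → ℂ) (hg : ∀ j, FS (g j)) :
    ∃ f, Lit sig f ∧ ∀ j, ∃ n : ℕ,
      NL sig (fun v => f (v.1 + n, v.2) - g j v) (2 * (1 / 2) ^ j) := by
  obtain ⟨F, N, hF, h1, h2, h3⟩ := exists_seq h0 hcl hsig g hg
  have hC : ∀ v, ∃ z, Tendsto (fun j => F j v) atTop (𝓝 z) := by
    intro v
    obtain ⟨C, hC⟩ := exists_pt_bound h0 v
    have hC0 : 0 ≤ C := by
      have := hC _ _ (h1 0)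
      have h' := (norm_nonneg _).trans this
      by_contra hc
      push Not at hc
      have : C * (1 / 2) ^ (0 + 1) < 0 := mul_neg_of_neg_of_pos hc (by positivity)
      linarith
    have : CauchySeq (fun j => F j v) := by
      refine cauchySeq_of_le_geometric (1 / 2) C (by norm_num) fun j => ?_
      rw [dist_comm, dist_eq_norm]
      refine (hC _ _ (h1 j)).trans ?_
      apply mul_le_mul_of_nonneg_left _ hC0
      rw [pow_succ]
      have : (0 : ℝ) < (1 / 2) ^ j := by positivity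
      linarith
    exact cauchySeq_tendsto_of_complete this
  choose f hf using hC
  have hd : ∀ j d, NL sig (fun v => F (j + d) v - F j v) ((1 / 2) ^ j - (1 / 2) ^ (j + d)) := by
    intro j d
    induction d with
    | zero =>
      refine ⟨by simp, fun i x => by simp, fun i => by simp⟩
    | succ d ih =>
      have := ih.add (h1 (j + d))
      have e : (1 / 2 : ℝ) ^ j - (1 / 2) ^ (j + (d + 1)) =
          (1 / 2) ^ j - (1 / 2) ^ (j + d) + (1 / 2) ^ (j + d + 1) := by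
        rw [← add_assoc, pow_succ _ (j + d)]; ring
      rw [e]
      convert this using 2
      rw [← add_assoc]; ring
  have hd' : ∀ i j d, i < j →
      NL sig (fun v => F (j + d) (v.1 + N i, v.2) - F j (v.1 + N i, v.2))
        ((1 / 2) ^ j - (1 / 2) ^ (j + d)) := by
    intro i j d hij
    induction d with
    | zero =>
      refine ⟨by simp, fun i x => by simp, fun i => by simp⟩
    | succ d ih =>
      have := ih.add (h2 (j + d) i (by omega))
      have e : (1 / 2 : ℝ) ^ j - (1 / 2) ^ (j + (d + 1)) =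
          (1 / 2) ^ j - (1 / 2) ^ (j + d) + (1 / 2) ^ (j + d + 1) := by
        rw [← add_assoc, pow_succ _ (j + d)]; ring
      rw [e]
      convert this using 2
      rw [← add_assoc]; ring
  have hlim : ∀ j, NL sig (fun v => f v - F j v) ((1 / 2) ^ j) := by
    intro j
    refine NL.limit (u := fun k v => F k v - F j v) (fun v => (hf v).sub tendsto_const_nhds) ?_
    filter_upwards [eventually_ge_atTop j] with k hk
    obtain ⟨d, rfl⟩ := Nat.exists_eq_add_of_le hk
    exact (hd j d).mono (by have : (0 : ℝ) < (1 / 2) ^ (j + d) := by positivity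
                            linarith)
  have hlim' : ∀ i j, i < j →
      NL sig (fun v => f (v.1 + N i, v.2) - F j (v.1 + N i, v.2)) ((1 / 2) ^ j) := by
    intro i j hij
    refine NL.limit (u := fun k v => F k (v.1 + N i, v.2) - F j (v.1 + N i, v.2))
      (fun v => (hf _).sub tendsto_const_nhds) ?_
    filter_upwards [eventually_ge_atTop j] with k hk
    obtain ⟨d, rfl⟩ := Nat.exists_eq_add_of_le hk
    exact (hd' i j d hij).mono (by have : (0 : ℝ) < (1 / 2) ^ (j + d) := by positivity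
                                   linarith)
  refine ⟨f, fun ε hε => ?_, fun j => ⟨N j, ?_⟩⟩
  · obtain ⟨j, hj⟩ := exists_pow_lt_of_lt_one hε (show (1 / 2 : ℝ) < 1 by norm_num)
    exact ⟨F j, hF j, (hlim j).mono hj.le⟩
  · have := (hlim' j (j + 1) (by omega)).add (h3 j)
    have e : (1 / 2 : ℝ) ^ (j + 1) + (1 / 2) ^ (j + 1) ≤ 2 * (1 / 2) ^ j := by
      rw [pow_succ]
      have : (0 : ℝ) < (1 / 2) ^ j := by positivity
      linarith
    refine NL.mono ?_ e
    convert this using 2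
    ring

theorem FS.finite {F : ℤ × ℕ → ℂ} (hF : FS F) : {v | F v ≠ 0}.Finite := by
  obtain ⟨r, hr⟩ := hF
  refine ((Finset.Icc (-(r : ℤ)) r) ×ˢ (range r)).finite_toSet.subset fun v hv => ?_
  have := hr v.1 v.2 hv
  exact mem_coe.2 (mem_product.2 ⟨mem_Icc.2 (by omega), mem_range.2 this.2⟩)

theorem FS.of_finite {F : ℤ × ℕ → ℂ} (hF : {v | F v ≠ 0}.Finite) : FS F := by
  classical
  refine ⟨∑ v ∈ hF.toFinset, (v.1.natAbs + v.2 + 1), fun i y h => ?_⟩
  have := Finset.single_le_sum (f := fun v : ℤ × ℕ => v.1.natAbs + v.2 + 1)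
    (fun _ _ => Nat.zero_le _) (hF.mem_toFinset.2 (show (i, y) ∈ {v | F v ≠ 0} from h))
  simp only at this
  omega

/-- The hypercyclic vector. -/
theorem exists_hypercyclic {sig : ℕ → Equiv.Perm ℕ} (h0 : sig 0 = 1)
    (hcl : ∀ j, Close (sig j) (sig (j + 1)))
    (hsig : ∀ k, ∃ n a R lam, Req k sig n a R lam) :
    ∃ f, Lit sig f ∧ ∀ G, Lit sig G → ∀ ε : ℝ, 0 < ε → ∃ n : ℕ,
      NL sig (fun v => f (v.1 + n, v.2) - G v) ε := by
  classical
  set d : ℕ → ℂ := fun n => if n = 0 then 0 else TopologicalSpace.denseSeq ℂ (n - 1) with hd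
  have hd0 : d 0 = 0 := by simp [hd]
  have hdd : ∀ (z : ℂ) (ε : ℝ), 0 < ε → ∃ n, ‖z - d n‖ ≤ ε := by
    intro z ε hε
    obtain ⟨n, hn⟩ := (TopologicalSpace.denseRange_denseSeq ℂ).exists_dist_lt z hε
    refine ⟨n + 1, ?_⟩
    simp only [hd, Nat.add_sub_cancel, Nat.succ_ne_zero, if_false]
    rw [← dist_eq_norm]
    exact hn.le
  obtain ⟨s, hs⟩ := exists_surjective_nat ((ℤ × ℕ) →₀ ℕ)
  obtain ⟨f, hf, hf'⟩ := exists_vector h0 hcl hsig (fun j v => d (s (Nat.unpair j).1 v)) (by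
    intro j
    apply FS.of_finite
    refine (s (Nat.unpair j).1).hasFiniteSupport.subset fun v hv => ?_
    simp only [Function.mem_support]
    intro h
    apply hv
    simp [h, hd0])
  refine ⟨f, hf, fun G hG ε hε => ?_⟩
  obtain ⟨F, hF, hGF⟩ := hG (ε / 4) (by positivity)
  have hk : ∀ v, ∃ n, ‖F v - d n‖ ≤ ε / 8 ∧ (F v = 0 → n = 0) := by
    intro v
    by_cases hv : F v = 0
    · exact ⟨0, by rw [hv, hd0]; simp; positivity, fun _ => rfl⟩
    · obtain ⟨n, hn⟩ := hdd (F v) (ε / 8) (by positivity)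
      exact ⟨n, hn, fun h => absurd h hv⟩
  choose k hk1 hk2 using hk
  have hkfin : (Function.support k).Finite := hF.finite.subset fun v hv => by
    intro h
    exact hv (hk2 v h)
  obtain ⟨i0, hi0⟩ := hs (Finsupp.ofSupportFinite k hkfin)
  obtain ⟨m, hm⟩ := exists_pow_lt_of_lt_one (show (0 : ℝ) < ε / 4 by positivity)
    (show (1 / 2 : ℝ) < 1 by norm_num)
  obtain ⟨n, hn⟩ := hf' (Nat.pair i0 m)
  refine ⟨n, ?_⟩
  have htgt : ∀ v, d (s (Nat.unpair (Nat.pair i0 m)).1 v) = d (k v) := by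
    intro v
    rw [Nat.unpair_pair, hi0]
    rfl
  simp only [htgt] at hn
  have hpow : 2 * (1 / 2 : ℝ) ^ (Nat.pair i0 m) ≤ ε / 2 := by
    have : (1 / 2 : ℝ) ^ (Nat.pair i0 m) ≤ (1 / 2) ^ m :=
      pow_le_pow_of_le_one (by norm_num) (by norm_num) (Nat.right_le_pair i0 m)
    linarith
  have h4 : NL sig (fun v => d (k v) - F v) (ε / 4) := by
    have hb : ∀ v, ‖d (k v) - F v‖ ≤ ε / 8 := fun v => by rw [norm_sub_rev]; exact hk1 v
    refine ⟨(hb _).trans (by linarith), fun i x => ?_, fun i => ?_⟩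
    · refine (norm_sub_le _ _).trans ?_
      have := hb (i, lab sig i x)
      have := hb (i, lab sig i (x + 1))
      linarith
    · refine (norm_sub_le _ _).trans ?_
      have := hb (i, lab sig i 0)
      have := hb (i + 1, lab sig (i + 1) 0)
      linarith
  have h5 := ((hn.mono hpow).add h4).add hGF.neg
  have e : ε / 2 + ε / 4 + ε / 4 = ε := by ring
  rw [e] at h5
  convert h5 using 2
  ring

end Pool.Agent.X114.HC
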