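import Pool.Agent.X114.HC.HC3

/-! The twisted comb is a tree, and little-oh functions on it are limits of finitely supported
ones. -/

namespace Pool.Agent.X114.HC

open Finset Filter Topology

/-- The position of a vertex on its tooth. -/
def pos (sig : ℕ → Equiv.Perm ℕ) (v : ℤ × ℕ) : ℕ := sig v.1.natAbs v.2

/-- The twisted comb. -/
def comb (sig : ℕ → Equiv.Perm ℕ) : SimpleGraph (ℤ × ℕ) where
  Adj u v := (u.1 = v.1 ∧ (pos sig u + 1 = pos sig v ∨ pos sig v + 1 = pos sig u)) ∨
    (pos sig u = 0 ∧ pos sig v = 0 ∧ (u.1 + 1 = v.1 ∨ v.1 + 1 = u.1))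
  symm := ⟨fun u v h => by
    rcases h with ⟨h1, h2⟩ | ⟨h1, h2, h3⟩
    · exact Or.inl ⟨h1.symm, h2.symm⟩
    · exact Or.inr ⟨h2, h1, h3.symm⟩⟩
  loopless := ⟨fun u h => by
    rcases h with ⟨h1, h2⟩ | ⟨h1, h2, h3⟩ <;> omega⟩

variable {sig : ℕ → Equiv.Perm ℕ}

theorem eq_lab (v : ℤ × ℕ) : v = (v.1, lab sig v.1 (pos sig v)) := by
  unfold pos; rw [lab_pos]

theorem pos_mk_lab (i : ℤ) (x : ℕ) : pos sig (i, lab sig i x) = x := pos_lab i x

theorem eq_of_pos {u v : ℤ × ℕ} (h1 : u.1 = v.1) (h2 : pos sig u = pos sig v) : u = v := by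
  rw [eq_lab (sig := sig) u, eq_lab (sig := sig) v, h1, h2]

theorem adj_tooth (i : ℤ) (x : ℕ) :
    (comb sig).Adj (i, lab sig i x) (i, lab sig i (x + 1)) :=
  Or.inl ⟨rfl, Or.inl (by rw [pos_mk_lab, pos_mk_lab])⟩

theorem adj_spine (i : ℤ) :
    (comb sig).Adj (i, lab sig i 0) (i + 1, lab sig (i + 1) 0) :=
  Or.inr ⟨pos_mk_lab _ _, pos_mk_lab _ _, Or.inl rfl⟩

/-- Every edge is a tooth edge or a spine edge. -/
theorem adj_cases {P : ℤ × ℕ → ℤ × ℕ → Prop} (hsymm : ∀ u v, P u v → P v u)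
    (h1 : ∀ i x, P (i, lab sig i x) (i, lab sig i (x + 1)))
    (h2 : ∀ i, P (i, lab sig i 0) (i + 1, lab sig (i + 1) 0))
    {u v : ℤ × ℕ} (h : (comb sig).Adj u v) : P u v := by
  rcases h with ⟨e1, e2 | e2⟩ | ⟨e1, e2, e3 | e3⟩
  · rw [eq_lab (sig := sig) u, eq_lab (sig := sig) v, ← e1, ← e2]
    exact h1 _ _
  · rw [eq_lab (sig := sig) u, eq_lab (sig := sig) v, e1, ← e2]
    exact hsymm _ _ (h1 _ _)
  · rw [eq_lab (sig := sig) u, eq_lab (sig := sig) v, e1, e2, ← e3]
    exact h2 _
  · rw [eq_lab (sig := sig) u, eq_lab (sig := sig) v, e1, e2, ← e3]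
    exact hsymm _ _ (h2 _)

theorem comb_connected : (comb sig).Connected := by
  rw [SimpleGraph.connected_iff_exists_forall_reachable]
  refine ⟨(0, lab sig 0 0), fun w => ?_⟩
  have hsp : ∀ m : ℕ, (comb sig).Reachable (0, lab sig 0 0) ((m : ℤ), lab sig m 0) ∧
      (comb sig).Reachable (0, lab sig 0 0) (-(m : ℤ), lab sig (-(m : ℤ)) 0) := by
    intro m
    induction m with
    | zero => exact ⟨by simp, by simp⟩
    | succ m ih =>
      refine ⟨ih.1.trans ?_, ih.2.trans ?_⟩
      · have := (adj_spine (sig := sig) (m : ℤ)).reachable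
        push_cast
        exact this
      · have := (adj_spine (sig := sig) (-((m + 1 : ℕ) : ℤ))).reachable.symm
        have e0 : -((m + 1 : ℕ) : ℤ) + 1 = -(m : ℤ) := by push_cast; ring
        rw [e0] at this
        exact this
  have h1 : (comb sig).Reachable (0, lab sig 0 0) (w.1, lab sig w.1 0) := by
    rcases Int.natAbs_eq w.1 with hi | hi
    · have := (hsp w.1.natAbs).1
      rwa [← hi] at this
    · have := (hsp w.1.natAbs).2
      rwa [← hi] at this
  have h2 : ∀ x, (comb sig).Reachable (w.1, lab sig w.1 0) (w.1, lab sig w.1 x) := by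
    intro x
    induction x with
    | zero => exact SimpleGraph.Reachable.refl _
    | succ x ih => exact ih.trans (adj_tooth w.1 x).reachable
  rw [eq_lab (sig := sig) w]
  exact h1.trans (h2 _)

theorem not_reachable_of_cut {V : Type*} {G : SimpleGraph V} (A : V → Prop)
    (hA : ∀ a b, G.Adj a b → (A a ↔ A b)) {u v : V} (h : G.Reachable u v) : A u ↔ A v := by
  obtain ⟨p⟩ := h
  induction p with
  | nil => exact Iff.rfl
  | cons hadj _ ih => exact (hA _ _ hadj).trans ih

theorem comb_acyclic : (comb sig).IsAcyclic := by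
  rw [SimpleGraph.isAcyclic_iff_forall_adj_isBridge]
  intro v w h
  refine adj_cases (P := fun v w => (comb sig).IsBridge s(v, w)) ?_ ?_ ?_ h
  · intro u v h
    rwa [Sym2.eq_swap]
  · intro i x
    rw [SimpleGraph.isBridge_iff]
    intro hr
    have := not_reachable_of_cut (fun u : ℤ × ℕ => u.1 = i ∧ x < pos sig u) (by
      intro a b hab
      rw [SimpleGraph.deleteEdges_adj] at hab
      obtain ⟨hab, hne⟩ := hab
      have hne' : ∀ a b : ℤ × ℕ, a.1 = i → b.1 = i → pos sig a = x → pos sig b = x + 1 →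
          s(a, b) = s((i, lab sig i x), (i, lab sig i (x + 1))) := by
        intro a b ha hb hpa hpb
        rw [eq_lab (sig := sig) a, eq_lab (sig := sig) b, ha, hb, hpa, hpb]
      have hne1 : ¬ (a.1 = i ∧ b.1 = i ∧ pos sig a = x ∧ pos sig b = x + 1) := by
        rintro ⟨q1, q2, q3, q4⟩
        exact hne (by rw [Set.mem_singleton_iff]; exact hne' a b q1 q2 q3 q4)
      have hne2 : ¬ (b.1 = i ∧ a.1 = i ∧ pos sig b = x ∧ pos sig a = x + 1) := by
        rintro ⟨q1, q2, q3, q4⟩
        exact hne (by rw [Set.mem_singleton_iff, Sym2.eq_swap]; exact hne' b a q1 q2 q3 q4)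
      rcases hab with ⟨e1, e2⟩ | ⟨e1, e2, e3⟩ <;> constructor <;> intro hh <;> omega) hr
    have h2 := this.2 ⟨rfl, by rw [pos_mk_lab]; omega⟩
    have h3 := h2.2
    rw [pos_mk_lab] at h3
    omega
  · intro i
    rw [SimpleGraph.isBridge_iff]
    intro hr
    have := not_reachable_of_cut (fun u : ℤ × ℕ => i < u.1) (by
      intro a b hab
      rw [SimpleGraph.deleteEdges_adj] at hab
      obtain ⟨hab, hne⟩ := hab
      have hne' : ∀ a b : ℤ × ℕ, a.1 = i → b.1 = i + 1 → pos sig a = 0 → pos sig b = 0 →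
          s(a, b) = s((i, lab sig i 0), (i + 1, lab sig (i + 1) 0)) := by
        intro a b ha hb hpa hpb
        rw [eq_lab (sig := sig) a, eq_lab (sig := sig) b, ha, hb, hpa, hpb]
      have hne1 : ¬ (a.1 = i ∧ b.1 = i + 1 ∧ pos sig a = 0 ∧ pos sig b = 0) := by
        rintro ⟨q1, q2, q3, q4⟩
        exact hne (by rw [Set.mem_singleton_iff]; exact hne' a b q1 q2 q3 q4)
      have hne2 : ¬ (b.1 = i ∧ a.1 = i + 1 ∧ pos sig b = 0 ∧ pos sig a = 0) := by
        rintro ⟨q1, q2, q3, q4⟩
        exact hne (by rw [Set.mem_singleton_iff, Sym2.eq_swap]; exact hne' b a q1 q2 q3 q4)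
      rcases hab with ⟨e1, e2⟩ | ⟨e1, e2, e3⟩ <;> constructor <;> intro hh <;> omega) hr
    simp only at this
    omega

theorem comb_isTree : (comb sig).IsTree := ⟨comb_connected, comb_acyclic⟩

theorem comb_neighbors_finite (v : ℤ × ℕ) : ((comb sig).neighborSet v).Finite := by
  apply Set.Finite.subset (s := {(v.1, lab sig v.1 (pos sig v + 1)),
    (v.1, lab sig v.1 (pos sig v - 1)), (v.1 + 1, lab sig (v.1 + 1) 0),
    (v.1 - 1, lab sig (v.1 - 1) 0)})
  · exact Set.toFinite _
  · intro w hw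
    rw [SimpleGraph.mem_neighborSet] at hw
    simp only [Set.mem_insert_iff, Set.mem_singleton_iff]
    rcases hw with ⟨e1, e2 | e2⟩ | ⟨e1, e2, e3 | e3⟩
    · left
      exact eq_of_pos (sig := sig) e1.symm (by rw [pos_mk_lab, e2])
    · right; left
      exact eq_of_pos (sig := sig) e1.symm (by rw [pos_mk_lab]; omega)
    · right; right; left
      exact eq_of_pos (sig := sig) e3.symm (by rw [pos_mk_lab, e2])
    · right; right; right
      exact eq_of_pos (sig := sig) (by simp only; omega) (by rw [pos_mk_lab, e2])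

theorem comb_neighbors_nontrivial (v : ℤ × ℕ) : ((comb sig).neighborSet v).Nontrivial := by
  rcases Nat.eq_zero_or_pos (pos sig v) with h | h
  · refine ⟨(v.1 + 1, lab sig (v.1 + 1) 0), ?_, (v.1 - 1, lab sig (v.1 - 1) 0), ?_, ?_⟩
    · exact Or.inr ⟨h, pos_mk_lab _ _, Or.inl rfl⟩
    · exact Or.inr ⟨h, pos_mk_lab _ _, Or.inr (by simp)⟩
    · intro hc
      have := congrArg Prod.fst hc
      simp only at this
      omega
  · refine ⟨(v.1, lab sig v.1 (pos sig v + 1)), ?_, (v.1, lab sig v.1 (pos sig v - 1)), ?_, ?_⟩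
    · exact Or.inl ⟨rfl, Or.inl (by rw [pos_mk_lab])⟩
    · exact Or.inl ⟨rfl, Or.inr (by rw [pos_mk_lab]; omega)⟩
    · intro hc
      have := congrArg (pos sig) hc
      rw [pos_mk_lab, pos_mk_lab] at this
      omega

theorem NL_iff {f : ℤ × ℕ → ℂ} {c : ℝ} :
    NL sig f c ↔ ‖f (0, 0)‖ ≤ c ∧ ∀ u v, (comb sig).Adj u v → ‖f u - f v‖ ≤ c := by
  constructor
  · intro h
    refine ⟨h.root, fun u v huv => ?_⟩
    refine adj_cases (P := fun u v => ‖f u - f v‖ ≤ c) ?_ h.tooth h.spine huv
    intro u v h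
    rwa [norm_sub_rev]
  · rintro ⟨h1, h2⟩
    exact ⟨h1, fun i x => h2 _ _ (adj_tooth i x), fun i => h2 _ _ (adj_spine i)⟩

/-- The cutoff function. -/
noncomputable def chi (M L : ℕ) (r : ℝ) : ℝ := max 0 (min 1 (1 + (2 * M - r) / L))

theorem chi_nonneg (M L : ℕ) (r : ℝ) : 0 ≤ chi M L r := le_max_left _ _

theorem chi_one (M L : ℕ) (r : ℝ) (hr : r ≤ 2 * M) : chi M L r = 1 := by
  unfold chi
  have : (0 : ℝ) ≤ (2 * M - r) / L := div_nonneg (by linarith) (by positivity)
  rw [min_eq_left (by linarith), max_eq_right zero_le_one]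

theorem chi_zero (M L : ℕ) (hL : 0 < L) (r : ℝ) (hr : 2 * M + L ≤ r) : chi M L r = 0 := by
  unfold chi
  have hL' : (0 : ℝ) < L := by exact_mod_cast hL
  apply max_eq_left
  refine (min_le_right _ _).trans ?_
  have : (2 * M - r) / L ≤ -1 := by
    rw [div_le_iff₀ hL']
    linarith
  linarith

theorem chi_lip (M L : ℕ) (hL : 0 < L) (r r' : ℝ) : |chi M L r - chi M L r'| ≤ |r - r'| / L := by
  unfold chi
  have hL' : (0 : ℝ) < L := by exact_mod_cast hL
  refine (abs_max_sub_max_le_max _ _ _ _).trans ?_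
  rw [sub_self, abs_zero]
  apply max_le (by positivity)
  refine (abs_min_sub_min_le_max _ _ _ _).trans ?_
  rw [sub_self, abs_zero]
  apply max_le (by positivity)
  have e : 1 + (2 * (M : ℝ) - r) / L - (1 + (2 * M - r') / L) = (r' - r) / L := by ring
  rw [e, abs_div, abs_of_pos hL', abs_sub_comm]

/-- Clamping to `[-M, M]`. -/
def clamp (M : ℕ) (i : ℤ) : ℤ := max (-(M : ℤ)) (min M i)

/-- The retraction onto the box, as a label. -/
def retr (sig : ℕ → Equiv.Perm ℕ) (M : ℕ) (i : ℤ) (x : ℕ) : ℤ × ℕ :=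
  if i.natAbs ≤ M then (i, lab sig i (min x M)) else (clamp M i, lab sig (clamp M i) 0)

/-- Small outside of a box implies approximable by finitely supported functions. -/
theorem lit_of_box (h0 : sig 0 = 1) (f : ℤ × ℕ → ℂ)
    (h : ∀ ε : ℝ, 0 < ε → ∃ M : ℕ, ∀ u v, (comb sig).Adj u v → ε ≤ ‖f u - f v‖ →
      u.1.natAbs ≤ M ∧ pos sig u ≤ M ∧ v.1.natAbs ≤ M ∧ pos sig v ≤ M) : Lit sig f := by
  classical
  intro ε hε
  obtain ⟨M, hM⟩ := h (ε / 2) (by positivity)
  set box : Finset (ℤ × ℕ) := (Finset.Icc (-(M : ℤ)) M) ×ˢ (range (M + 1)) with hbox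
  set K : ℝ := ∑ p ∈ box, ‖f (p.1, lab sig p.1 p.2)‖ with hK
  have hKb : ∀ (i : ℤ) (x : ℕ), i.natAbs ≤ M → x ≤ M → ‖f (i, lab sig i x)‖ ≤ K := by
    intro i x hi hx
    have hmem : (i, x) ∈ box := mem_product.2 ⟨mem_Icc.2 (by omega), mem_range.2 (by omega)⟩
    exact Finset.single_le_sum (f := fun p : ℤ × ℕ => ‖f (p.1, lab sig p.1 p.2)‖)
      (fun _ _ => norm_nonneg _) hmem
  have hK0 : 0 ≤ K := Finset.sum_nonneg fun _ _ => norm_nonneg _
  obtain ⟨L, hL⟩ := exists_nat_gt (2 * K / ε)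
  have hLpos : (0 : ℝ) < L := lt_of_le_of_lt (by positivity) hL
  have hL0 : 0 < L := by exact_mod_cast hLpos
  have hKL : K / L ≤ ε / 2 := by
    rw [div_lt_iff₀ hε] at hL
    rw [div_le_iff₀ hLpos]
    linarith
  have hretr : ∀ i x, ‖f (retr sig M i x)‖ ≤ K := by
    intro i x
    unfold retr
    split_ifs with hi
    · exact hKb i _ hi (min_le_right _ _)
    · exact hKb _ 0 (by unfold clamp; omega) (Nat.zero_le _)
  set g : ℤ → ℕ → ℂ := fun i x =>
    f (retr sig M i x) * ((chi M L ((i.natAbs : ℝ) + x) : ℝ) : ℂ) with hg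
  -- edges on which the retraction is constant
  have hconst : ∀ (i i' : ℤ) (x x' : ℕ), retr sig M i x = retr sig M i' x' →
      |((i.natAbs : ℝ) + x) - ((i'.natAbs : ℝ) + x')| ≤ 1 → ‖g i x - g i' x'‖ ≤ ε / 2 := by
    intro i i' x x' h1 h2
    simp only [hg]
    rw [← h1, ← mul_sub, norm_mul, ← Complex.ofReal_sub, Complex.norm_real, Real.norm_eq_abs]
    calc _ ≤ K * (1 / L) := by
            apply mul_le_mul (hretr _ _) _ (abs_nonneg _) hK0
            exact (chi_lip M L hL0 _ _).trans (div_le_div_of_nonneg_right h2 hLpos.le)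
      _ = K / L := by ring
      _ ≤ _ := hKL
  have hbox1 : ∀ (i : ℤ) (x : ℕ), i.natAbs ≤ M → x ≤ M → g i x = f (i, lab sig i x) := by
    intro i x hi hx
    simp only [hg]
    rw [chi_one, Complex.ofReal_one, mul_one]
    · unfold retr
      rw [if_pos hi, min_eq_left hx]
    · have h1 : (i.natAbs : ℝ) ≤ M := by exact_mod_cast hi
      have h2 : (x : ℝ) ≤ M := by exact_mod_cast hx
      linarith
  refine ⟨fun v => g v.1 (pos sig v), ?_, ?_, fun i x => ?_, fun i => ?_⟩
  · -- finite support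
    apply FS.of_finite
    have hfin : (((Finset.Icc (-((2 * M + L : ℕ) : ℤ)) ((2 * M + L : ℕ) : ℤ)) ×ˢ
      (range (2 * M + L))).image (fun p : ℤ × ℕ => (p.1, lab sig p.1 p.2)) : Set (ℤ × ℕ)).Finite :=
      Finset.finite_toSet _
    refine hfin.subset fun v hv => ?_
    have hlt : ((v.1.natAbs : ℝ) + pos sig v) < 2 * M + L := by
      by_contra hc
      push Not at hc
      apply hv
      simp only [hg]
      rw [chi_zero M L hL0 _ hc]
      simp
    have hlt' : v.1.natAbs + pos sig v < 2 * M + L := by exact_mod_cast hlt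
    rw [mem_coe, mem_image]
    refine ⟨(v.1, pos sig v), mem_product.2 ⟨mem_Icc.2 ?_, mem_range.2 ?_⟩, ?_⟩
    · simp only; omega
    · simp only; omega
    · exact (eq_lab v).symm
  · have : g 0 (pos sig (0, 0)) = f (0, 0) := by
      have hp : pos sig (0, 0) = 0 := by unfold pos; simp [h0]
      have hl : lab sig 0 0 = 0 := by unfold lab; rw [Int.natAbs_zero, h0]; rfl
      rw [hp, hbox1 0 0 (by simp) (Nat.zero_le _), hl]
    show ‖f (0, 0) - g 0 (pos sig (0, 0))‖ ≤ ε
    rw [this, sub_self, norm_zero]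
    exact hε.le
  · show ‖(f (i, lab sig i x) - g i (pos sig (i, lab sig i x))) -
      (f (i, lab sig i (x + 1)) - g i (pos sig (i, lab sig i (x + 1))))‖ ≤ ε
    rw [pos_mk_lab, pos_mk_lab]
    by_cases hin : i.natAbs ≤ M ∧ x + 1 ≤ M
    · rw [hbox1 i x hin.1 (by omega), hbox1 i (x + 1) hin.1 hin.2]
      simp only [sub_self, norm_zero]
      exact hε.le
    · have h1 : ‖f (i, lab sig i x) - f (i, lab sig i (x + 1))‖ ≤ ε / 2 := by
        by_contra hc
        push Not at hc
        have := hM _ _ (adj_tooth i x) hc.le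
        rw [pos_mk_lab, pos_mk_lab] at this
        exact hin ⟨this.1, this.2.2.2⟩
      have h2 : ‖g i x - g i (x + 1)‖ ≤ ε / 2 := by
        apply hconst
        · unfold retr
          split_ifs with hi
          · have : min x M = min (x + 1) M := by
              have : M ≤ x := by
                by_contra hc
                exact hin ⟨hi, by omega⟩
              omega
            rw [this]
          · rfl
        · push_cast
          rw [abs_le]; constructor <;> linarith
      have e : (f (i, lab sig i x) - g i x) - (f (i, lab sig i (x + 1)) - g i (x + 1)) =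
          (f (i, lab sig i x) - f (i, lab sig i (x + 1))) - (g i x - g i (x + 1)) := by ring
      rw [e]
      exact (norm_sub_le _ _).trans (by linarith)
  · show ‖(f (i, lab sig i 0) - g i (pos sig (i, lab sig i 0))) -
      (f (i + 1, lab sig (i + 1) 0) - g (i + 1) (pos sig (i + 1, lab sig (i + 1) 0)))‖ ≤ ε
    rw [pos_mk_lab, pos_mk_lab]
    by_cases hin : i.natAbs ≤ M ∧ (i + 1).natAbs ≤ M
    · rw [hbox1 i 0 hin.1 (by omega), hbox1 (i + 1) 0 hin.2 (by omega)]
      simp only [sub_self, norm_zero]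
      exact hε.le
    · have h1 : ‖f (i, lab sig i 0) - f (i + 1, lab sig (i + 1) 0)‖ ≤ ε / 2 := by
        by_contra hc
        push Not at hc
        have := hM _ _ (adj_spine i) hc.le
        exact hin ⟨this.1, this.2.2.1⟩
      have h2 : ‖g i 0 - g (i + 1) 0‖ ≤ ε / 2 := by
        apply hconst
        · unfold retr
          rw [Nat.zero_min]
          have key : ∀ j : ℤ, (if j.natAbs ≤ M then (j, lab sig j 0) else
              (clamp M j, lab sig (clamp M j) 0)) = (clamp M j, lab sig (clamp M j) 0) := by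
            intro j
            split_ifs with hj
            · have : clamp M j = j := by unfold clamp; omega
              rw [this]
            · rfl
          rw [key, key]
          have : clamp M i = clamp M (i + 1) := by unfold clamp; omega
          rw [this]
        · have h3 : (((i.natAbs : ℤ)) : ℝ) - ((i + 1).natAbs : ℤ) =
            (((i.natAbs : ℤ) - ((i + 1).natAbs : ℤ) : ℤ) : ℝ) := by push_cast; ring
          have h4 : |((i.natAbs : ℤ) - ((i + 1).natAbs : ℤ) : ℤ)| ≤ 1 := by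
            rw [abs_le]; omega
          have h5 : |(((i.natAbs : ℤ) - ((i + 1).natAbs : ℤ) : ℤ) : ℝ)| ≤ 1 := by
            exact_mod_cast h4
          rw [← h3] at h5
          simpa using h5
      have e : (f (i, lab sig i 0) - g i 0) - (f (i + 1, lab sig (i + 1) 0) - g (i + 1) 0) =
          (f (i, lab sig i 0) - f (i + 1, lab sig (i + 1) 0)) - (g i 0 - g (i + 1) 0) := by ring
      rw [e]
      exact (norm_sub_le _ _).trans (by linarith)

end Pool.Agent.X114.HC
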